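import Pool.Agent.Helper20.EA.K13r

/-!
# The exact border for all arities, end
-/

set_option autoImplicit false

namespace Pool.Agent.Helper6.EA

open FirstOrder Pool.Agent.Helper20.Spectra Pool.Agent.Helper31.QD Pool.Agent.Helper38.MC
  Pool.Agent.Helper58.QD Pool.Agent.Helper40.MC Pool.Agent.Helper6.MC

/-- EA16: the border for all arities (helper20's exactFO with `r` in place of `2`) -/
theorem borderA (hK : ∀ r a b : ℕ, ∃ K : ℕ, ∀ (S : Type) (ar : S → ℕ), (∀ s, ar s ≤ r) → ∀ (n : ℕ)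
    (R : Interp S ar (Fin n)), (∀ t, 1 ≤ t → ¬ FamR R (a * t + b) t) → Nat.card (AuG R) ≤ K ^ n)
    (S : Type) [Finite S] (ar : S → ℕ) (χ : (RelLang S ar).Sentence) :
    ∃ K : ℕ, (∀ᶠ n : ℕ in Filter.atTop, count χ n * K ^ n ≤ n.factorial) →
      ∃ k, FinAP k (Pool.Agent.Helper40.MC.spec χ) :=
  border_of (fun r a b => by
    obtain ⟨K, h⟩ := hK r a b
    exact ⟨K, fun S _ ar har n R hR => h S ar har n R hR⟩) S ar χ

end Pool.Agent.Helper6.EA
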