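import Pool.Agent.Helper6.EA.Defs
import Pool.Agent.Helper31.MC.P5
import Pool.Agent.Helper6.MC.Sharp2

/-!
# A small component with a large orbit gives a family
-/

set_option autoImplicit false

namespace Pool.Agent.Helper6.EA

open FirstOrder Pool.Agent.Helper20.Spectra Pool.Agent.Helper31.QD Pool.Agent.Helper38.MC
  Pool.Agent.Helper58.QD Pool.Agent.Helper40.MC Pool.Agent.Helper6.MC Pool.Agent.Helper31.MC
open Pool.Agent.Helper12.EK (Gr Ball Cmp mem_Cmp)

variable {S : Type} {ar : S → ℕ} {V : Type} [Fintype V]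

/-- two translates for which `p` is not a minority pattern give the same value -/
theorem same20 {k : ℕ} (R : Interp S ar V) {A : Finset V} {u : Fin k → V} {g : Equiv.Perm V} (hg : g ∈ GA R A) {s : S}
    {p : Fin (ar s) → V ⊕ Fin k} (h1 : ¬ Min R A u s p) (h2 : ¬ Min R A (g ∘ u) s p) :
    R s (ev (g ∘ u) p) ↔ R s (ev u p) := by
  classical
  unfold Min at h1 h2
  rw [not_le] at h1 h2
  obtain ⟨a, ha, h1'⟩ : ∃ a : Finset (Equiv.Perm V),
      (∀ h, h ∈ a ↔ h ∈ GA R A ∧ (R s (ev (h ∘ u) p) ↔ R s (ev u p))) ∧ (GA R A).card < 2 * a.card :=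
    ⟨(GA R A).filter fun h : Equiv.Perm V => (R s (ev (h ∘ u) p) ↔ R s (ev u p)), fun h => Finset.mem_filter, h1⟩
  obtain ⟨b, hb, h2'⟩ : ∃ b : Finset (Equiv.Perm V),
      (∀ h, h ∈ b ↔ h ∈ GA R A ∧ (R s (ev (h ∘ (g ∘ u)) p) ↔ R s (ev (g ∘ u) p))) ∧ (GA R A).card < 2 * b.card :=
    ⟨(GA R A).filter fun h : Equiv.Perm V => (R s (ev (h ∘ (g ∘ u)) p) ↔ R s (ev (g ∘ u) p)),
      fun h => Finset.mem_filter, h2⟩
  obtain ⟨b', hb'⟩ : ∃ b', b' = b.image fun h => h * g := ⟨_, rfl⟩
  have hb'' : b'.card = b.card := by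
    rw [hb']
    exact Finset.card_image_of_injective _ fun x y hxy => mul_right_cancel hxy
  have hsub : a ∪ b' ⊆ GA R A := by
    intro h hh
    rcases Finset.mem_union.1 hh with hh | hh
    · exact ((ha h).1 hh).1
    · rw [hb'] at hh
      obtain ⟨h', hh', rfl⟩ := Finset.mem_image.1 hh
      exact GS_mul ((hb h').1 hh').1 hg
  have hne : (a ∩ b').Nonempty := by
    rw [Finset.nonempty_iff_ne_empty]
    intro h0
    have h3 := Finset.card_union_add_card_inter a b'
    rw [h0, Finset.card_empty, hb''] at h3
    have h4 := Finset.card_le_card hsub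
    omega
  obtain ⟨h, hh⟩ := hne
  rw [Finset.mem_inter] at hh
  have h3 : R s (ev (h ∘ u) p) ↔ R s (ev u p) := ((ha h).1 hh.1).2
  have hh2 := hh.2
  rw [hb'] at hh2
  obtain ⟨h', hh', rfl⟩ := Finset.mem_image.1 hh2
  have h4 : R s (ev (h' ∘ (g ∘ u)) p) ↔ R s (ev (g ∘ u) p) := ((hb h').1 hh').2
  exact h4.symm.trans h3

omit [Fintype V] in
/-- an image is small, for any instance -/
lemma card_img20 {k m r : ℕ} [DecidableEq V] (f : Fin k → V) (v : Fin m → V) (hm : m ≤ r)
    (h : ∀ l, ∃ i, v i = f l) : (Finset.univ.image f).card ≤ r := by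
  have h1 : Finset.univ.image f ⊆ Finset.univ.image v := by
    intro w hw
    obtain ⟨l, -, rfl⟩ := Finset.mem_image.1 hw
    obtain ⟨i, hi⟩ := h l
    exact Finset.mem_image.2 ⟨i, Finset.mem_univ _, hi⟩
  refine (Finset.card_le_card h1).trans (Finset.card_image_le.trans ?_)
  rw [Finset.card_univ, Fintype.card_fin]
  exact hm

omit [Fintype V] in
lemma reach_map20 {E : V → V → Prop} {g : Equiv.Perm V} (hg : ∀ x y, E x y → E (g x) (g y)) {x y : V}
    (h : (Gr E).Reachable x y) : (Gr E).Reachable (g x) (g y) := by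
  let f : Gr E →g Gr E :=
    { toFun := g
      map_rel' := by
        intro a b hab
        have h1 : a ≠ b ∧ (E a b ∨ E b a) := by
          unfold Gr at hab
          rwa [SimpleGraph.fromRel_adj] at hab
        unfold Gr
        rw [SimpleGraph.fromRel_adj]
        exact ⟨fun h => h1.1 (g.injective h), h1.2.imp (hg _ _) (hg _ _)⟩ }
  exact h.map f

omit [Fintype V] in
lemma reach_of_E20 {E : V → V → Prop} {x y : V} (h : E x y) : (Gr E).Reachable x y := by
  by_cases hxy : x = y
  · rw [hxy]
  · apply SimpleGraph.Adj.reachable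
    unfold Gr
    rw [SimpleGraph.fromRel_adj]
    exact ⟨hxy, Or.inl h⟩

/-- EA10: a small component with a large orbit gives a family (the translates of the component; a pattern with outer elements
outside of the component is not a minority pattern; move the at most `r` used blocks one by one to free translates) -/
theorem small_fam [DecidableEq V] {r Δ T : ℕ} (har : ∀ s, ar s ≤ r) (R : Interp S ar V) {A : Finset V} {E : V → V → Prop}
    (hG : Gd r R A E r Δ T) {x : V} {k D : ℕ} (hk : (Cmp E x).card ≤ k)
    (hO : k * (D + T + 3 * r + 3) < (oA R A x).card) : ∃ t, 1 ≤ t ∧ t ≤ k ∧ FamR R D t := by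
  rename_i inst
  obtain rfl : inst = fun a b => Classical.propDecidable (a = b) := Subsingleton.elim _ _
  classical
  have hxx : x ∈ Cmp E x := mem_Cmp.2 (SimpleGraph.Reachable.refl x)
  set K := Cmp E x with hK
  have hinv : ∀ {g : Equiv.Perm V}, g ∈ GA R A → ∀ {a b : V}, (Gr E).Reachable a b → (Gr E).Reachable (g a) (g b) :=
    fun hg _ _ h => reach_map20 (fun a b => hG.inv _ hg a b) h
  have hback : ∀ {g : Equiv.Perm V}, g ∈ GA R A → ∀ {a b : V}, (Gr E).Reachable (g a) b →
      ∃ b', g b' = b ∧ (Gr E).Reachable a b' := by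
    intro g hg a b h
    refine ⟨g⁻¹ b, g.apply_symm_apply b, ?_⟩
    have h1 := hinv (GS_inv hg) h
    rwa [show g⁻¹ (g a) = a from g.symm_apply_apply a] at h1
  -- disjoint translates
  have htr : ∀ n, n ≤ D + T + 3 * r + 3 → ∃ h : Fin n → Equiv.Perm V, (∀ i, h i ∈ GA R A) ∧
      ∀ i j, i ≠ j → ∀ y ∈ K, ∀ y' ∈ K, h i y ≠ h j y' := by
    intro n
    induction n with
    | zero => exact fun _ => ⟨fun i => i.elim0, fun i => i.elim0, fun i => i.elim0⟩
    | succ n ih =>
      intro hn
      obtain ⟨h, hG', hdis⟩ := ih (by omega)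
      let U : Finset V := Finset.univ.biUnion fun i => K.image (h i)
      have hU : U.card ≤ n * k := by
        refine (Finset.card_biUnion_le).trans ?_
        refine (Finset.sum_le_sum fun i _ => Finset.card_image_le.trans hk).trans ?_
        simp
      have hU2 : U.card < (oA R A x).card := by
        have h1 : n * k ≤ k * (D + T + 3 * r + 3) := by
          rw [Nat.mul_comm]
          exact Nat.mul_le_mul_left _ (by omega)
        omega
      obtain ⟨y, hy, hyU⟩ := Finset.exists_mem_notMem_of_card_lt_card hU2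
      obtain ⟨g, hg, rfl⟩ := mem_orb'.1 hy
      have key : ∀ j, ∀ y ∈ K, ∀ y' ∈ K, g y ≠ h j y' := by
        intro j y hy y' hy' he
        apply hyU
        refine Finset.mem_biUnion.2 ⟨j, Finset.mem_univ _, ?_⟩
        have h1 : (Gr E).Reachable (h j x) (g x) := by
          have h2 := hinv (hG' j) (mem_Cmp.1 hy')
          rw [← he] at h2
          exact h2.trans (hinv hg (mem_Cmp.1 hy)).symm
        obtain ⟨b, hb, hb'⟩ := hback (hG' j) h1
        exact Finset.mem_image.2 ⟨b, mem_Cmp.2 hb', hb⟩
      refine ⟨Fin.snoc h g, ?_, ?_⟩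
      · intro i
        refine Fin.lastCases ?_ (fun i => ?_) i
        · rw [Fin.snoc_last]; exact hg
        · rw [Fin.snoc_castSucc]; exact hG' i
      · intro i j
        refine Fin.lastCases ?_ (fun i => ?_) i
        · refine Fin.lastCases ?_ (fun j => ?_) j
          · intro h1; exact absurd rfl h1
          · intro _ y hy y' hy'
            rw [Fin.snoc_last, Fin.snoc_castSucc]
            exact key j y hy y' hy'
        · refine Fin.lastCases ?_ (fun j => ?_) j
          · intro _ y hy y' hy'
            rw [Fin.snoc_last, Fin.snoc_castSucc]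
            exact (key i y' hy' y hy).symm
          · intro hij y hy y' hy'
            rw [Fin.snoc_castSucc, Fin.snoc_castSucc]
            exact hdis i j (fun h => hij (by rw [h])) y hy y' hy'
  obtain ⟨h, hh, hdis⟩ := htr _ le_rfl
  -- the orbits of the elements of the translates are large
  have horb : ∀ i, ∀ y ∈ K, T < (oA R A (h i y)).card := by
    intro i y hy
    have h1 : (Finset.univ.image fun j => h j y) ⊆ oA R A (h i y) := by
      intro w hw
      obtain ⟨j, -, rfl⟩ := Finset.mem_image.1 hw
      refine mem_orb'.2 ⟨h j * (h i)⁻¹, GS_mul (hh j) (GS_inv (hh i)), ?_⟩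
      rw [Equiv.Perm.mul_apply]
      congr 1
      exact (h i).symm_apply_apply y
    have h2 := Finset.card_le_card h1
    rw [Finset.card_image_of_injective _ (fun j j' hjj => by
      by_contra hne
      exact hdis j j' hne y hy y hy hjj), Finset.card_univ, Fintype.card_fin] at h2
    omega
  -- the family
  have ht1 : 1 ≤ K.card := Finset.card_pos.2 ⟨x, hxx⟩
  let z : Fin K.card ≃ K := K.equivFin.symm
  let q := D + r + 3
  have hq : q ≤ D + T + 3 * r + 3 := by
    show D + r + 3 ≤ _
    omega
  let u : Fin q × Fin K.card → V := fun ia => h (Fin.castLE hq ia.1) (z ia.2)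
  have hu : Function.Injective u := by
    rintro ⟨i, a⟩ ⟨j, b⟩ hij
    by_cases hne : Fin.castLE hq i = Fin.castLE hq j
    · have h1 : i = j := Fin.castLE_injective hq hne
      subst h1
      have h2 : (z a : V) = z b := (h (Fin.castLE hq i)).injective hij
      have h3 : a = b := z.injective (Subtype.ext h2)
      rw [h3]
    · exact absurd hij (hdis _ _ hne _ (z a).2 _ (z b).2)
  have hub : ∀ i w, w ∈ K → ∃ a, u (i, a) = h (Fin.castLE hq i) w := by
    intro i w hw
    refine ⟨z.symm ⟨w, hw⟩, ?_⟩
    show h (Fin.castLE hq i) (z (z.symm ⟨w, hw⟩)) = _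
    rw [Equiv.apply_symm_apply]
  -- moving one block
  have hmv : ∀ (i j : Fin q), i ≠ j → ∀ (s : S) (v : Fin (ar s) → V), (∀ m a, v m ≠ u (j, a)) →
      (R s (mv u (Function.update id i j) ∘ v) ↔ R s v) := by
    intro i j hij s v hv
    by_cases hex : ∃ m₀ a₀, v m₀ = u (i, a₀)
    · obtain ⟨m₀, a₀, hm₀⟩ := hex
      have hrs : ar s ≤ r := har s
      let c : Fin (r + 1) → V := fun l =>
        if hl : ∃ hl : (l : ℕ) < ar s, ∃ a, v ⟨l, hl⟩ = u (i, a) then v ⟨l, hl.1⟩ else v m₀
      let p : Fin (ar s) → V ⊕ Fin (r + 1) := fun m =>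
        if ∃ a, v m = u (i, a) then Sum.inr ⟨m, by omega⟩ else Sum.inl (v m)
      have hc : ∀ l, ∃ a, c l = u (i, a) := by
        intro l
        by_cases hl : ∃ hl : (l : ℕ) < ar s, ∃ a, v ⟨l, hl⟩ = u (i, a)
        · obtain ⟨a, ha⟩ := hl.2
          exact ⟨a, by simp only [c]; rw [dif_pos hl]; exact ha⟩
        · exact ⟨a₀, by simp only [c]; rw [dif_neg hl]; exact hm₀⟩
      have hcard : ∀ (g : Equiv.Perm V) (l : Fin (r + 1)), ∃ i : Fin (ar s), (g ∘ v) i = (g ∘ c) l := by
        intro g l
        by_cases hl : ∃ hl : (l : ℕ) < ar s, ∃ a, v ⟨l, hl⟩ = u (i, a)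
        · refine ⟨⟨l, hl.1⟩, ?_⟩
          simp only [c, Function.comp_apply]
          rw [dif_pos hl]
        · refine ⟨m₀, ?_⟩
          simp only [c, Function.comp_apply]
          rw [dif_neg hl]
      have hev : ev c p = v := by
        funext m
        show Sum.elim id c (p m) = v m
        by_cases hm : ∃ a, v m = u (i, a)
        · have e : p m = Sum.inr ⟨m, by omega⟩ := if_pos hm
          rw [e]
          show c ⟨m, _⟩ = v m
          have hl : ∃ hl : ((⟨m, by omega⟩ : Fin (r + 1)) : ℕ) < ar s, ∃ a, v ⟨(⟨m, by omega⟩ : Fin (r + 1)), hl⟩ = u (i, a) :=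
            ⟨m.2, hm⟩
          simp only [c]
          rw [dif_pos hl]
        · have e : p m = Sum.inl (v m) := if_neg hm
          rw [e]
          rfl
      have hout : ∀ w ∈ out p, (∀ a, w ≠ u (i, a)) ∧ ∀ a, w ≠ u (j, a) := by
        intro w hw
        obtain ⟨m, hm⟩ := mem_out.1 hw
        by_cases hm' : ∃ a, v m = u (i, a)
        · have e : p m = Sum.inr ⟨m, by omega⟩ := if_pos hm'
          rw [e] at hm
          exact absurd hm (by simp)
        · have e : p m = Sum.inl (v m) := if_neg hm'
          rw [e] at hm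
          have h1 : v m = w := Sum.inl_injective hm
          subst h1
          exact ⟨fun a ha => hm' ⟨a, ha⟩, hv m⟩
      -- not a minority pattern
      have hnm : ∀ (g : Equiv.Perm V) (l : Fin q), (∀ b, ∃ a, g (c b) = u (l, a)) → (∀ w ∈ out p, ∀ a, w ≠ u (l, a)) →
          ¬ Min R A (g ∘ c) s p := by
        intro g l hgc hw hmin
        obtain ⟨w, hwo, b, hE⟩ := hG.main A (Finset.Subset.refl A) (g ∘ c)
          (@card_img20 V _ _ _ _ (g ∘ c) (g ∘ v) hrs (hcard g)) (fun b => by
          obtain ⟨a, ha⟩ := hgc b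
          show T < (oA R A (g (c b))).card
          rw [ha]
          exact horb _ _ (z a).2) s p hmin
        obtain ⟨a, ha⟩ := hgc b
        have h1 : (Gr E).Reachable (h (Fin.castLE hq l) (z a)) w := by
          have h2 := reach_of_E20 hE
          rw [Function.comp_apply, ha] at h2
          exact h2
        obtain ⟨w', hw', h2⟩ := hback (hh _) h1
        obtain ⟨a', ha'⟩ := hub l w' (mem_Cmp.2 ((mem_Cmp.1 (z a).2).trans h2))
        exact hw w hwo a' (by rw [ha', hw'])
      let g : Equiv.Perm V := h (Fin.castLE hq j) * (h (Fin.castLE hq i))⁻¹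
      have hg : g ∈ GA R A := GS_mul (hh _) (GS_inv (hh _))
      have hgu : ∀ a, g (u (i, a)) = u (j, a) := by
        intro a
        show (h (Fin.castLE hq j) * (h (Fin.castLE hq i))⁻¹) (h (Fin.castLE hq i) (z a)) = h (Fin.castLE hq j) (z a)
        rw [Equiv.Perm.mul_apply]
        congr 1
        exact (h (Fin.castLE hq i)).symm_apply_apply _
      have h1 : ¬ Min R A c s p := by
        have := hnm 1 i (fun b => by
          obtain ⟨a, ha⟩ := hc b
          exact ⟨a, ha⟩) (fun w hw a => (hout w hw).1 a)
        exact this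
      have h2 : ¬ Min R A (g ∘ c) s p := hnm g j (fun b => by
        obtain ⟨a, ha⟩ := hc b
        exact ⟨a, by rw [ha, hgu]⟩) (fun w hw a => (hout w hw).2 a)
      have h3 := same20 R hg h1 h2
      rw [hev] at h3
      have e : mv u (Function.update id i j) ∘ v = ev (g ∘ c) p := by
        funext m
        show mv u (Function.update id i j) (v m) = Sum.elim id (g ∘ c) (p m)
        by_cases hm : ∃ a, v m = u (i, a)
        · have e : p m = Sum.inr ⟨m, by omega⟩ := if_pos hm
          have e' : c ⟨m, by omega⟩ = v m := by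
            have := congrFun hev m
            show c ⟨m, _⟩ = v m
            rw [← this]
            show _ = Sum.elim id c (p m)
            rw [e]
            rfl
          obtain ⟨a, ha⟩ := hm
          rw [e]
          show _ = g (c ⟨m, _⟩)
          rw [e', ha, hgu, mv_in u hu, Function.update_self]
        · have e : p m = Sum.inl (v m) := if_neg hm
          rw [e]
          show _ = v m
          by_cases hin : ∃ p, u p = v m
          · obtain ⟨⟨b, a⟩, hp⟩ := hin
            have hb : b ≠ i := by
              rintro rfl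
              exact hm ⟨a, hp.symm⟩
            rw [← hp, mv_in u hu, Function.update_of_ne hb]
            rfl
          · push Not at hin
            exact mv_out u _ _ hin
      rw [e]
      exact h3
    · push Not at hex
      have e : mv u (Function.update id i j) ∘ v = v := by
        funext m
        show mv u (Function.update id i j) (v m) = v m
        by_cases hin : ∃ p, u p = v m
        · obtain ⟨⟨b, a⟩, hp⟩ := hin
          have hb : b ≠ i := by
            rintro rfl
            exact hex m a hp.symm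
          rw [← hp, mv_in u hu, Function.update_of_ne hb]
          rfl
        · push Not at hin
          exact mv_out u _ _ hin
      rw [e]
  suffices hF : FamR R q K.card from
    ⟨K.card, ht1, hk, hF.fewer (by show D ≤ D + r + 3; omega)⟩
  refine ⟨u, hu, fun π σ h1 h2 => au_perm R u hu (fun i j hij σ' h1' h2' => ?_) π σ (fun b a => h1 b a) h2⟩
  exact au_block R r q K.card har (by show r + 3 ≤ D + r + 3; omega) u hu hmv i j hij σ' h1' h2'

end Pool.Agent.Helper6.EA
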