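import Pool.Agent.Helper20.EK.K13

/-!
# The exact border for symbols of any arities, from the theorem on automorphisms
-/

set_option autoImplicit false

namespace Pool.Agent.Helper6.EA

open FirstOrder Pool.Agent.Helper20.Spectra Pool.Agent.Helper31.QD Pool.Agent.Helper38.MC
  Pool.Agent.Helper58.QD Pool.Agent.Helper40.MC Pool.Agent.Helper6.MC

/-- every large model has a family of blocks of bounded size, and the spectrum; arities at most `r` -/
theorem exactFO_r (r : ℕ) (hK : ∀ a b : ℕ, ∃ K : ℕ, ∀ (S : Type) [Finite S] (ar : S → ℕ), (∀ s, ar s ≤ r) → ∀ (n : ℕ)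
    (R : Interp S ar (Fin n)), (∀ t, 1 ≤ t → ¬ FamR R (a * t + b) t) → Nat.card (AuG R) ≤ K ^ n)
    (S : Type) [Finite S] (ar : S → ℕ) (har : ∀ s, ar s ≤ r) (χ : (RelLang S ar).Sentence) :
    ∃ K : ℕ, (∀ᶠ n : ℕ in Filter.atTop, count χ n * K ^ n ≤ n.factorial) →
      ∃ k, FinAP k (Pool.Agent.Helper40.MC.spec χ) := by
  obtain ⟨Q, hQ⟩ : ∃ Q, Q = max 1 (qd χ) := ⟨_, rfl⟩
  have hQ1 : 1 ≤ Q := by rw [hQ]; exact le_max_left _ _
  have hQ2 : qd χ ≤ Q := by rw [hQ]; exact le_max_right _ _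
  obtain ⟨K, hK'⟩ := hK Q (Q + r + 3)
  refine ⟨K + 1, fun hcount => ?_⟩
  obtain ⟨n₁, hn₁⟩ := Filter.eventually_atTop.1 hcount
  have hfam := Pool.Agent.Helper12.EK.bounded_famD har χ (n₀ := max 1 n₁) hQ2 (fun n hn R hR => by
    by_contra hcon
    push Not at hcon
    have h0 := hK' S ar har n R hcon
    have h1 : count χ n * (K + 1) ^ n ≤ n.factorial := hn₁ n ((le_max_right _ _).trans hn)
    have h2 : n.factorial ≤ count χ n * Nat.card (AuG R) := factorial_le hR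
    have h3 : 0 < count χ n := by
      have h4 := n.factorial_pos.trans_le h2
      exact Nat.pos_of_mul_pos_right h4
    have h5 : (K + 1) ^ n ≤ Nat.card (AuG R) := Nat.le_of_mul_le_mul_left (h1.trans h2) h3
    have h6 : K ^ n < (K + 1) ^ n := by
      have : 1 ≤ n := (le_max_left _ _).trans hn
      exact Nat.pow_lt_pow_left (Nat.lt_succ_self K) (by omega)
    omega)
  refine ⟨max 1 n₁ + 1, (Pool.Agent.Helper12.MC.stmtAP _ _).1 ⟨max 1 n₁, ?_⟩⟩
  rintro n ⟨-, R, hR⟩ hn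
  obtain ⟨t, ht1, ht2, u, hu, hu'⟩ := hfam n hn R hR
  refine ⟨t, ht1, ht2, fun j => ⟨?_, pump χ R hR hQ1 hQ2 u hu hu' j⟩⟩
  have h6 : 1 ≤ n := (le_max_left _ _).trans hn
  omega

/-- the exact border for all first-order sentences, from the theorem on automorphisms -/
theorem border_of (hK : ∀ r a b : ℕ, ∃ K : ℕ, ∀ (S : Type) [Finite S] (ar : S → ℕ), (∀ s, ar s ≤ r) → ∀ (n : ℕ)
    (R : Interp S ar (Fin n)), (∀ t, 1 ≤ t → ¬ FamR R (a * t + b) t) → Nat.card (AuG R) ≤ K ^ n)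
    (S : Type) [Finite S] (ar : S → ℕ) (χ : (RelLang S ar).Sentence) :
    ∃ K : ℕ, (∀ᶠ n : ℕ in Filter.atTop, count χ n * K ^ n ≤ n.factorial) →
      ∃ k, FinAP k (Pool.Agent.Helper40.MC.spec χ) := by
  have := Fintype.ofFinite S
  exact exactFO_r (Finset.univ.sup ar) (hK _) S ar
    (fun s => Finset.le_sup (f := ar) (Finset.mem_univ s)) χ

end Pool.Agent.Helper6.EA
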