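import Pool.Agent.Helper6.EA.Defs

/-!
# The kernel of a tuple, by averaging covers over the group
-/

set_option autoImplicit false

namespace Pool.Agent.Helper6.EA

open FirstOrder Pool.Agent.Helper20.Spectra Pool.Agent.Helper31.QD Pool.Agent.Helper38.MC
  Pool.Agent.Helper58.QD Pool.Agent.Helper40.MC Pool.Agent.Helper6.MC

variable {S : Type} {ar : S → ℕ} {V : Type} [Fintype V]

lemma one_mem_GA (R : Interp S ar V) (A : Finset V) : (1 : Equiv.Perm V) ∈ GA R A :=
  mem_GS.2 ⟨(AuG R).one_mem, fun _ _ => rfl⟩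

/-- EA4: the kernel, by averaging: choose covers `C u u'`, `W u z = #{(h, h') : h z ∈ C (h u) (h' u)}`,
`N u = {z | #G ^ 2 ≤ 2 r W u z}` if `U u`, else `∅` -/
theorem kernel {r L : ℕ} (har : ∀ s, ar s ≤ r) (R : Interp S ar V) {A : Finset V} (U : (Fin (r + 1) → V) → Prop)
    (hU : ∀ h ∈ GA R A, ∀ u, U u → U (h ∘ u))
    (hC : ∀ h ∈ GA R A, ∀ u : Fin (r + 1) → V, U u → ∃ C : Finset V, (∀ w ∈ C, w ∉ A) ∧ C.card ≤ L ∧
      ∀ (s : S) (p : Fin (ar s) → V ⊕ Fin (r + 1)), Dis R u (h ∘ u) s p → ∃ w ∈ out p, w ∈ C) :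
    ∃ N : (Fin (r + 1) → V) → Finset V, (∀ u, (N u).card ≤ 2 * r * L) ∧ (∀ u, ∀ z ∈ N u, z ∉ A ∧ U u) ∧
      (∀ h ∈ GA R A, ∀ u, ∀ z ∈ N u, h z ∈ N (h ∘ u)) ∧
      ∀ u, U u → ∀ (s : S) (p : Fin (ar s) → V ⊕ Fin (r + 1)), Min R A u s p → ∃ w ∈ out p, w ∈ N u := by
  classical
  obtain ⟨c, hc1, hc2, hc3⟩ : ∃ c : Equiv.Perm V → (Fin (r + 1) → V) → Finset V,
      (∀ h ∈ GA R A, ∀ u, U u → ∀ w ∈ c h u, w ∉ A) ∧
      (∀ h ∈ GA R A, ∀ u, U u → (c h u).card ≤ L) ∧
      ∀ h ∈ GA R A, ∀ u, U u → ∀ (s : S) (p : Fin (ar s) → V ⊕ Fin (r + 1)),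
        Dis R u (h ∘ u) s p → ∃ w ∈ out p, w ∈ c h u := by
    have h1 : ∀ (h : Equiv.Perm V) (u : Fin (r + 1) → V), ∃ C : Finset V, h ∈ GA R A → U u →
        (∀ w ∈ C, w ∉ A) ∧ C.card ≤ L ∧
        ∀ (s : S) (p : Fin (ar s) → V ⊕ Fin (r + 1)), Dis R u (h ∘ u) s p → ∃ w ∈ out p, w ∈ C := by
      intro h u
      by_cases hh : h ∈ GA R A ∧ U u
      · obtain ⟨C, hC⟩ := hC h hh.1 u hh.2
        exact ⟨C, fun _ _ => hC⟩
      · exact ⟨∅, fun h1 h2 => absurd ⟨h1, h2⟩ hh⟩
    choose c hc using h1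
    exact ⟨c, fun h hh u hu => (hc h u hh hu).1, fun h hh u hu => (hc h u hh hu).2.1,
      fun h hh u hu => (hc h u hh hu).2.2⟩
  set G := GA R A with hG
  have hGpos : 0 < G.card := Finset.card_pos.2 ⟨1, one_mem_GA R A⟩
  let W : (Fin (r + 1) → V) → V → ℕ := fun u z =>
    ((G ×ˢ G).filter fun q : Equiv.Perm V × Equiv.Perm V => q.1 z ∈ c q.2 (q.1 ∘ u)).card
  let N : (Fin (r + 1) → V) → Finset V := fun u =>
    Finset.univ.filter fun z => U u ∧ G.card ^ 2 ≤ 2 * r * W u z
  have hN : ∀ u z, z ∈ N u ↔ U u ∧ G.card ^ 2 ≤ 2 * r * W u z := by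
    intro u z
    simp [N]
  refine ⟨N, ?_, ?_, ?_, ?_⟩
  · -- the number of elements
    intro u
    by_cases hu : U u
    · have h1 : ∑ z, W u z ≤ G.card ^ 2 * L := by
        have h2 : ∑ z, W u z = ∑ q ∈ G ×ˢ G, (Finset.univ.filter fun z => q.1 z ∈ c q.2 (q.1 ∘ u)).card := by
          simp only [W, Finset.card_filter]
          rw [Finset.sum_comm]
        rw [h2]
        have h3 : ∀ q ∈ G ×ˢ G, (Finset.univ.filter fun z => q.1 z ∈ c q.2 (q.1 ∘ u)).card ≤ L := by
          intro q hq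
          rw [Finset.mem_product] at hq
          refine le_trans ?_ (hc2 q.2 hq.2 (q.1 ∘ u) (hU q.1 hq.1 u hu))
          refine Finset.card_le_card_of_injOn q.1 (fun z hz => ?_) (fun a _ b _ hab => q.1.injective hab)
          exact (Finset.mem_filter.1 hz).2
        refine (Finset.sum_le_card_nsmul _ _ _ h3).trans (le_of_eq ?_)
        rw [Finset.card_product, smul_eq_mul]
        ring
      have h4 : (N u).card * G.card ^ 2 ≤ ∑ z ∈ N u, 2 * r * W u z := by
        rw [← smul_eq_mul]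
        exact Finset.card_nsmul_le_sum _ _ _ (fun z hz => ((hN u z).1 hz).2)
      have h5 : ∑ z ∈ N u, 2 * r * W u z ≤ ∑ z, 2 * r * W u z :=
        Finset.sum_le_sum_of_subset (Finset.subset_univ _)
      have e5 : ∑ z, 2 * r * W u z = 2 * r * ∑ z, W u z := (Finset.mul_sum _ _ _).symm
      have h6 : (N u).card * G.card ^ 2 ≤ (2 * r * L) * G.card ^ 2 := by
        refine h4.trans (h5.trans (e5.le.trans ((Nat.mul_le_mul_left _ h1).trans (le_of_eq ?_))))
        ring
      exact Nat.le_of_mul_le_mul_right h6 (Nat.pow_pos hGpos)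
    · have : N u = ∅ := by
        rw [Finset.eq_empty_iff_forall_notMem]
        intro z hz
        exact hu ((hN u z).1 hz).1
      rw [this]
      exact Nat.zero_le _
  · -- outside `A`
    intro u z hz
    obtain ⟨hu, hz⟩ := (hN u z).1 hz
    refine ⟨fun hzA => ?_, hu⟩
    have h1 : 0 < W u z := by
      rcases Nat.eq_zero_or_pos (W u z) with h | h
      · rw [h, Nat.mul_zero] at hz
        have : 0 < G.card ^ 2 := Nat.pow_pos hGpos
        omega
      · exact h
    obtain ⟨q, hq⟩ := Finset.card_pos.1 h1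
    rw [Finset.mem_filter, Finset.mem_product] at hq
    have h2 := hc1 q.2 hq.1.2 (q.1 ∘ u) (hU q.1 hq.1.1 u hu) _ hq.2
    rw [(mem_GS.1 hq.1.1).2 z hzA] at h2
    exact h2 hzA
  · -- equivariance
    intro k hk u z hz
    obtain ⟨hu, hz⟩ := (hN u z).1 hz
    refine (hN _ _).2 ⟨hU k hk u hu, hz.trans (Nat.mul_le_mul_left _ ?_)⟩
    refine Finset.card_le_card_of_injOn (fun q => (q.1 * k⁻¹, q.2)) ?_ ?_
    · intro q hq
      rw [Finset.mem_coe, Finset.mem_filter, Finset.mem_product] at hq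
      rw [Finset.mem_coe, Finset.mem_filter, Finset.mem_product]
      refine ⟨⟨GS_mul hq.1.1 (GS_inv hk), hq.1.2⟩, ?_⟩
      have e1 : (q.1 * k⁻¹) (k z) = q.1 z := by
        rw [Equiv.Perm.mul_apply]
        congr 1
        exact k.symm_apply_apply z
      have e2 : (q.1 * k⁻¹ : Equiv.Perm V) ∘ (k ∘ u) = q.1 ∘ u := by
        funext i
        show (q.1 * k⁻¹) (k (u i)) = q.1 (u i)
        rw [Equiv.Perm.mul_apply]
        congr 1
        exact k.symm_apply_apply (u i)
      show (q.1 * k⁻¹) (k z) ∈ c q.2 ((q.1 * k⁻¹ : Equiv.Perm V) ∘ (k ∘ u))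
      rw [e1, e2]
      exact hq.2
    · intro a _ b _ hab
      have h1 := congrArg Prod.fst hab
      have h2 := congrArg Prod.snd hab
      exact Prod.ext (mul_right_cancel h1) h2
  · -- minority patterns
    intro u hu s p hp
    by_contra hcon
    push Not at hcon
    have hD : G.card ≤ 2 * (G.filter fun g : Equiv.Perm V => Dis R u (g ∘ u) s p).card := by
      have h1 : (G.filter fun h : Equiv.Perm V => (R s (ev (h ∘ u) p) ↔ R s (ev u p))).card +
          (G.filter fun g : Equiv.Perm V => Dis R u (g ∘ u) s p).card = G.card := by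
        rw [← Finset.card_filter_add_card_filter_not (s := G)
          (fun h : Equiv.Perm V => (R s (ev (h ∘ u) p) ↔ R s (ev u p)))]
        congr 2
        ext g
        rw [Finset.mem_filter, Finset.mem_filter]
        refine and_congr_right fun _ => ?_
        unfold Dis
        exact not_congr Iff.comm
      have h2 : 2 * (G.filter fun h : Equiv.Perm V => (R s (ev (h ∘ u) p) ↔ R s (ev u p))).card ≤ G.card := by
        unfold Min at hp
        convert hp
      omega
    -- translation by `h`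
    have hT : ∀ h ∈ G, (G.filter fun g : Equiv.Perm V => Dis R u (g ∘ u) s p).card ≤
        (G.filter fun g : Equiv.Perm V => ∃ w ∈ out p, h w ∈ c g (h ∘ u)).card := by
      intro h hh
      refine Finset.card_le_card_of_injOn (fun g => h * g * h⁻¹) ?_ ?_
      · intro g hg
        rw [Finset.mem_coe, Finset.mem_filter] at hg
        rw [Finset.mem_coe, Finset.mem_filter]
        have hm : h * g * h⁻¹ ∈ G := GS_mul (GS_mul hh hg.1) (GS_inv hh)
        refine ⟨hm, ?_⟩
        have hhG : h ∈ AuG R := (mem_GS.1 hh).1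
        have e2 : (h * g * h⁻¹ : Equiv.Perm V) ∘ (h ∘ u) = h ∘ (g ∘ u) := by
          funext i
          show (h * g * h⁻¹) (h (u i)) = h (g (u i))
          rw [Equiv.Perm.mul_apply, Equiv.Perm.mul_apply]
          congr 2
          exact h.symm_apply_apply (u i)
        have h3 : Dis R (h ∘ u) ((h * g * h⁻¹ : Equiv.Perm V) ∘ (h ∘ u)) s (mvp h p) := by
          unfold Dis
          rw [e2, R_mvp hhG u p, R_mvp hhG (g ∘ u) p]
          exact hg.2
        obtain ⟨w, hw, hwc⟩ := hc3 _ hm _ (hU h hh u hu) s _ h3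
        obtain ⟨w', hw', rfl⟩ := mem_out_mvp.1 hw
        exact ⟨w', hw', hwc⟩
      · intro a _ b _ hab
        exact mul_left_cancel (mul_right_cancel hab)
    have hsum : G.card * (G.filter fun g : Equiv.Perm V => Dis R u (g ∘ u) s p).card ≤
        ∑ w ∈ out p, W u w := by
      have h1 : ∑ w ∈ out p, W u w =
          ∑ h ∈ G, ∑ g ∈ G, ((out p).filter fun w => h w ∈ c g (h ∘ u)).card := by
        simp only [W, Finset.card_filter, Finset.sum_product]
        rw [Finset.sum_comm]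
        refine Finset.sum_congr rfl fun h _ => ?_
        rw [Finset.sum_comm]
      rw [h1, ← smul_eq_mul]
      refine Finset.card_nsmul_le_sum _ _ _ fun h hh => ?_
      refine (hT h hh).trans ?_
      rw [Finset.card_filter]
      refine Finset.sum_le_sum fun g _ => ?_
      split_ifs with hg
      · obtain ⟨w, hw, hwc⟩ := hg
        exact Finset.card_pos.2 ⟨w, Finset.mem_filter.2 ⟨hw, hwc⟩⟩
      · exact Nat.zero_le _
    have hlt : ∀ w ∈ out p, 2 * r * W u w + 1 ≤ G.card ^ 2 := by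
      intro w hw
      have h1 := hcon w hw
      rw [hN] at h1
      by_contra h2
      exact h1 ⟨hu, by omega⟩
    have hr : (out p).card ≤ r := (card_out p).trans (har s)
    have h5 : ∑ w ∈ out p, (2 * r * W u w + 1) ≤ (out p).card * G.card ^ 2 := by
      rw [← smul_eq_mul]
      exact Finset.sum_le_card_nsmul _ _ _ hlt
    rw [Finset.sum_add_distrib, ← Finset.mul_sum, Finset.sum_const, smul_eq_mul, mul_one] at h5
    have h6 : G.card * G.card ≤ 2 * ∑ w ∈ out p, W u w := by
      have h7 : G.card * G.card ≤ G.card * (2 * (G.filter fun g : Equiv.Perm V => Dis R u (g ∘ u) s p).card) :=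
        Nat.mul_le_mul_left _ hD
      have h8 := Nat.mul_le_mul_left 2 hsum
      have e : G.card * (2 * (G.filter fun g : Equiv.Perm V => Dis R u (g ∘ u) s p).card) =
          2 * (G.card * (G.filter fun g : Equiv.Perm V => Dis R u (g ∘ u) s p).card) := by ring
      omega
    have h9 : r * (G.card * G.card) ≤ r * (2 * ∑ w ∈ out p, W u w) := Nat.mul_le_mul_left _ h6
    have h10 : (out p).card * G.card ^ 2 ≤ r * G.card ^ 2 := Nat.mul_le_mul_right _ hr
    have e1 : r * (2 * ∑ w ∈ out p, W u w) = 2 * r * ∑ w ∈ out p, W u w := by ring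
    have e2 : r * (G.card * G.card) = r * G.card ^ 2 := by ring
    have h11 : (out p).card = 0 := by omega
    have h12 : ∑ w ∈ out p, W u w = 0 := by
      rw [Finset.card_eq_zero.1 h11]
      rfl
    rw [h12] at h6
    have h13 : 0 < G.card * G.card := Nat.mul_pos hGpos hGpos
    omega

end Pool.Agent.Helper6.EA
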